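import Pool.Agent.H123Z.GSC.Basic

set_option autoImplicit false
set_option linter.all false
set_option maxHeartbeats 400000

namespace Pool.Agent.H123Z.GSC

open Finset PowerSeries

namespace H476Appr

variable {𝔸 : Type} [NormedRing 𝔸] [NormedAlgebra ℝ 𝔸]

theorem gam_one (Z : Subring 𝔸) (P : 𝔸 →ₗ[ℝ] 𝔸) : Gam Z P 1 := by
  refine ⟨?_, ?_, ?_, ?_, fun k => tau_one P k⟩
  · exact (cfr Z).one_mem
  · exact (finS 𝔸).one_mem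
  · rw [inv_one]; exact (cfr Z).one_mem
  · rw [inv_one]; exact (finS 𝔸).one_mem

theorem gam_mul (Z : Subring 𝔸) (P : 𝔸 →ₗ[ℝ] 𝔸) (hP : ∀ x y, P (x * y) = P (y * x))
    {E F : (PowerSeries 𝔸)ˣ} (hE : Gam Z P E) (hF : Gam Z P F) : Gam Z P (E * F) := by
  obtain ⟨a1, a2, a3, a4, a5⟩ := hE
  obtain ⟨b1, b2, b3, b4, b5⟩ := hF
  refine ⟨?_, ?_, ?_, ?_, fun k => ?_⟩
  · rw [Units.val_mul]; exact (cfr Z).mul_mem a1 b1
  · rw [Units.val_mul]; exact (finS 𝔸).mul_mem a2 b2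
  · rw [mul_inv_rev, Units.val_mul]; exact (cfr Z).mul_mem b3 a3
  · rw [mul_inv_rev, Units.val_mul]; exact (finS 𝔸).mul_mem b4 a4
  · rw [tau_mul P hP, a5, b5, add_zero]

/-- Second order approximation of one series. -/
def Ap (Z : Subring 𝔸) (P : 𝔸 →ₗ[ℝ] 𝔸) (ρ : ℝ) (K : ℕ) (η C : ℝ) (y : PowerSeries 𝔸) : Prop :=
  Van K y ∧ Bd ρ y (C * η) ∧ ∃ E : (PowerSeries 𝔸)ˣ, Gam Z P E ∧
    Van (K + 1) ((E : PowerSeries 𝔸) - 1 - y) ∧ Bd ρ ((E : PowerSeries 𝔸) - 1 - y) (C * η ^ 2)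

theorem ap_zero (Z : Subring 𝔸) (P : 𝔸 →ₗ[ℝ] 𝔸) (ρ : ℝ) (K : ℕ) (η : ℝ) : Ap Z P ρ K η 0 0 := by
  refine ⟨Van.zero K, by simpa using Bd.zero, 1, gam_one Z P, ?_, ?_⟩
  · simpa using Van.zero (R := 𝔸) (K + 1)
  · simpa using Bd.zero

theorem ap_add (Z : Subring 𝔸) (P : 𝔸 →ₗ[ℝ] 𝔸) (hP : ∀ x y, P (x * y) = P (y * x)) {ρ : ℝ}
    (hρ : 0 ≤ ρ) {K : ℕ} (hK : 1 ≤ K) {η : ℝ} (h0 : 0 ≤ η) (h1 : η ≤ 1) {C D : ℝ} (hC : 0 ≤ C)
    (hD : 0 ≤ D) {y z : PowerSeries 𝔸} (hy : Ap Z P ρ K η C y) (hz : Ap Z P ρ K η D z) :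
    Ap Z P ρ K η (C + D + 4 * C * D) (y + z) := by
  obtain ⟨a1, a2, E, a3, a4, a5⟩ := hy
  obtain ⟨b1, b2, F, b3, b4, b5⟩ := hz
  have hCD : 0 ≤ C * D := mul_nonneg hC hD
  have hη2 : η ^ 2 ≤ η := by nlinarith
  have key : ((E * F : (PowerSeries 𝔸)ˣ) : PowerSeries 𝔸) - 1 - (y + z) =
      ((E : PowerSeries 𝔸) - 1 - y) + ((F : PowerSeries 𝔸) - 1 - z) +
        (y + ((E : PowerSeries 𝔸) - 1 - y)) * (z + ((F : PowerSeries 𝔸) - 1 - z)) := by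
    rw [Units.val_mul]
    noncomm_ring
  refine ⟨a1.add b1, (a2.add hρ b2).le ?_, E * F, gam_mul Z P hP a3 b3, ?_, ?_⟩
  · nlinarith [mul_nonneg hCD h0]
  · rw [key]
    refine (a4.add b4).add ?_
    exact ((a1.add (a4.mono (by omega))).mul (b1.add (b4.mono (by omega)))).mono (by omega)
  · rw [key]
    have c1 : Bd ρ (y + ((E : PowerSeries 𝔸) - 1 - y)) (2 * C * η) :=
      (a2.add hρ a5).le (by nlinarith [mul_le_mul_of_nonneg_left hη2 hC])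
    have c2 : Bd ρ (z + ((F : PowerSeries 𝔸) - 1 - z)) (2 * D * η) :=
      (b2.add hρ b5).le (by nlinarith [mul_le_mul_of_nonneg_left hη2 hD])
    refine ((a5.add hρ b5).add hρ (c1.mul hρ c2)).le (le_of_eq ?_)
    ring

/-- The series with coefficients `s k • n`. -/
noncomputable def sm (s : ℕ → ℝ) (n : 𝔸) : PowerSeries 𝔸 := PowerSeries.mk fun k => s k • n

theorem coeff_sm (s : ℕ → ℝ) (n : 𝔸) (k : ℕ) : coeff k (sm s n) = s k • n := by simp [sm]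

theorem sm_mul_sm (s t : ℕ → ℝ) {n : 𝔸} (hn : n * n = 0) : sm s n * sm t n = 0 := by
  ext k
  rw [coeff_mul]
  simp only [coeff_sm, smul_mul_assoc, mul_smul_comm, hn, smul_zero]
  simp

theorem Dt_sm (s : ℕ → ℝ) (n : 𝔸) : Dt (sm s n) = sm (fun k => (k : ℝ) * s k) n := by
  ext k
  rw [coeff_Dt, coeff_sm, coeff_sm, mul_smul]

/-- Admissible integer sequences. -/
def Adm (ρ : ℝ) (K : ℕ) (η : ℝ) (s : ℕ → ℤ) : Prop :=
  (∀ k, k < K → s k = 0) ∧ (∃ N, ∀ k, N ≤ k → s k = 0) ∧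
    ∀ K', ∑ k ∈ range K', |(s k : ℝ)| * ρ ^ k ≤ η

theorem Adm.neg {ρ : ℝ} {K : ℕ} {η : ℝ} {s : ℕ → ℤ} (h : Adm ρ K η s) : Adm ρ K η fun k => -s k := by
  obtain ⟨h1, ⟨N, h2⟩, h3⟩ := h
  refine ⟨fun k hk => by simp [h1 k hk], ⟨N, fun k hk => by simp [h2 k hk]⟩, fun K' => ?_⟩
  simpa using h3 K'

/-- Elements all of whose admissible series are approximable. -/
def Good (Z : Subring 𝔸) (P : 𝔸 →ₗ[ℝ] 𝔸) (ρ : ℝ) (n : 𝔸) : Prop :=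
  ∃ C : ℝ, 0 ≤ C ∧ ∀ (K : ℕ) (η : ℝ) (s : ℕ → ℤ), 1 ≤ K → 0 ≤ η → η ≤ 1 → Adm ρ K η s →
    Ap Z P ρ K η C (sm (fun k => (s k : ℝ)) n)

theorem good_gen (Z : Subring 𝔸) (P : 𝔸 →ₗ[ℝ] 𝔸) {ρ : ℝ} (hρ : 0 ≤ ρ) {n : 𝔸} (hZ : n ∈ Z)
    (hn : n * n = 0) (hPn : P n = 0) : Good Z P ρ n := by
  refine ⟨‖n‖, norm_nonneg n, fun K η s hK h0 h1 hs => ?_⟩
  obtain ⟨s1, ⟨N, s2⟩, s3⟩ := hs
  have hc : sm (fun k => (s k : ℝ)) n ∈ cfr Z := by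
    intro k
    rw [coeff_sm, Int.cast_smul_eq_zsmul]
    exact zsmul_mem hZ _
  have hf : sm (fun k => (s k : ℝ)) n ∈ finS 𝔸 :=
    ⟨N, fun k hk => by rw [coeff_sm, s2 k hk]; simp⟩
  refine ⟨fun k hk => by rw [coeff_sm, s1 k hk]; simp, fun K' => ?_,
    usq (sm (fun k => (s k : ℝ)) n) (sm_mul_sm _ _ hn), ⟨?_, ?_, ?_, ?_, fun k => ?_⟩, ?_, ?_⟩
  · calc ∑ k ∈ range K', ‖coeff k (sm (fun k => (s k : ℝ)) n)‖ * ρ ^ k
        = ‖n‖ * ∑ k ∈ range K', |(s k : ℝ)| * ρ ^ k := by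
          rw [Finset.mul_sum]
          refine Finset.sum_congr rfl fun k _ => ?_
          rw [coeff_sm, norm_smul, Real.norm_eq_abs]
          ring
      _ ≤ ‖n‖ * η := mul_le_mul_of_nonneg_left (s3 K') (norm_nonneg n)
  · rw [usq_val]; exact (cfr Z).add_mem (cfr Z).one_mem hc
  · rw [usq_val]; exact (finS 𝔸).add_mem (finS 𝔸).one_mem hf
  · rw [usq_inv]; exact (cfr Z).sub_mem (cfr Z).one_mem hc
  · rw [usq_inv]; exact (finS 𝔸).sub_mem (finS 𝔸).one_mem hf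
  · unfold tau
    rw [usq_val, usq_inv, Dt_add, Dt_one, zero_add, mul_sub, mul_one, Dt_sm, sm_mul_sm _ _ hn,
      sub_zero, coeff_sm, map_smul, hPn, smul_zero]
  · rw [usq_val]
    simpa using Van.zero (R := 𝔸) (K + 1)
  · rw [usq_val]
    have : (1 + sm (fun k => (s k : ℝ)) n - 1 - sm (fun k => (s k : ℝ)) n : PowerSeries 𝔸) = 0 := by
      abel
    rw [this]
    exact Bd.zero.le (by positivity)

theorem good_closure (Z : Subring 𝔸) (P : 𝔸 →ₗ[ℝ] 𝔸) (hP : ∀ x y, P (x * y) = P (y * x)) {ρ : ℝ}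
    (hρ : 0 ≤ ρ) {n : 𝔸} (hn : n ∈ AddSubgroup.closure {n : 𝔸 | n ∈ Z ∧ n * n = 0 ∧ P n = 0}) :
    Good Z P ρ n := by
  induction hn using AddSubgroup.closure_induction with
  | mem x hx => exact good_gen Z P hρ hx.1 hx.2.1 hx.2.2
  | zero =>
    refine ⟨0, le_rfl, fun K η s hK h0 h1 hs => ?_⟩
    have : sm (fun k => (s k : ℝ)) (0 : 𝔸) = 0 := by
      ext k; simp [coeff_sm]
    rw [this]
    exact ap_zero Z P ρ K η
  | add x y _ _ hx hy =>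
    obtain ⟨C, hC, hx⟩ := hx
    obtain ⟨D, hD, hy⟩ := hy
    refine ⟨C + D + 4 * C * D, by positivity, fun K η s hK h0 h1 hs => ?_⟩
    have : sm (fun k => (s k : ℝ)) (x + y) =
        sm (fun k => (s k : ℝ)) x + sm (fun k => (s k : ℝ)) y := by
      ext k; simp [coeff_sm]
    rw [this]
    exact ap_add Z P hP hρ hK h0 h1 hC hD (hx K η s hK h0 h1 hs) (hy K η s hK h0 h1 hs)
  | neg x _ hx =>
    obtain ⟨C, hC, hx⟩ := hx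
    refine ⟨C, hC, fun K η s hK h0 h1 hs => ?_⟩
    have : sm (fun k => (s k : ℝ)) (-x) = sm (fun k => ((-s k : ℤ) : ℝ)) x := by
      ext k; simp [coeff_sm]
    rw [this]
    exact hx K η (fun k => -s k) hK h0 h1 hs.neg

theorem good_sum (Z : Subring 𝔸) (P : 𝔸 →ₗ[ℝ] 𝔸) (hP : ∀ x y, P (x * y) = P (y * x)) {ρ : ℝ}
    (hρ : 0 ≤ ρ) {I : Type} (m : I → 𝔸) (hm : ∀ i, Good Z P ρ (m i)) (T : Finset I) :
    ∃ C : ℝ, 0 ≤ C ∧ ∀ (K : ℕ) (η : ℝ) (s : I → ℕ → ℤ), 1 ≤ K → 0 ≤ η → η ≤ 1 →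
      (∀ i, Adm ρ K η (s i)) → Ap Z P ρ K η C (∑ i ∈ T, sm (fun k => (s i k : ℝ)) (m i)) := by
  classical
  induction T using Finset.induction_on with
  | empty =>
    refine ⟨0, le_rfl, fun K η s hK h0 h1 hs => ?_⟩
    rw [Finset.sum_empty]
    exact ap_zero Z P ρ K η
  | insert a T ha ih =>
    obtain ⟨D, hD, ih⟩ := ih
    obtain ⟨C, hC, hx⟩ := hm a
    refine ⟨C + D + 4 * C * D, by positivity, fun K η s hK h0 h1 hs => ?_⟩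
    rw [Finset.sum_insert ha]
    exact ap_add Z P hP hρ hK h0 h1 hC hD (hx K η (s a) hK h0 h1 (hs a)) (ih K η s hK h0 h1 hs)

end H476Appr

theorem appr {𝔸 : Type} [NormedRing 𝔸] [NormedAlgebra ℝ 𝔸] (Z : Subring 𝔸) (P : 𝔸 →ₗ[ℝ] 𝔸)
    (hP : ∀ x y, P (x * y) = P (y * x)) {I : Type} [Fintype I] (m : I → 𝔸)
    (hm : ∀ i, m i ∈ AddSubgroup.closure {n : 𝔸 | n ∈ Z ∧ n * n = 0 ∧ P n = 0}) :
    Appr Z P m := by
  intro ρ hρ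
  obtain ⟨C, hC, h⟩ := H476Appr.good_sum Z P hP hρ m
    (fun i => H476Appr.good_closure Z P hP hρ (hm i)) Finset.univ
  refine ⟨C, hC, fun K η s hK h0 h1 s1 s2 s3 => ?_⟩
  obtain ⟨N, s2⟩ := s2
  obtain ⟨a1, a2, E, a3, a4, a5⟩ := h K η s hK h0 h1 fun i => ⟨s1 i, ⟨N, s2 i⟩, s3 i⟩
  have e : (PowerSeries.mk fun k => ∑ i, (s i k : ℝ) • m i : PowerSeries 𝔸) =
      ∑ i, H476Appr.sm (fun k => (s i k : ℝ)) (m i) := by
    ext k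
    rw [coeff_mk, map_sum]
    exact Finset.sum_congr rfl fun i _ => (H476Appr.coeff_sm (fun k => (s i k : ℝ)) (m i) k).symm
  rw [e]
  exact ⟨E, a3, a4, a5, a2⟩

end Pool.Agent.H123Z.GSC
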